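import Pool.Agent.W988.LD.Sharp

/-!
# No low-degree refutation of `q`-colourability of `G(n, 1/2)` for `q ≥ n ^ (1/2 + ε)`

A graph on the vertex set `Fin n` is encoded by the vector `enc G` of signs, indexed by the unordered
pairs of distinct vertices (`+1` for the edges, `-1` for the other pairs). For every `ε > 0` there is
a degree `D n`, of order `(log n) ^ 2`, such that no polynomials of degree at most `D n` weakly separate
`G(n, 1/2)` from the `q`-colourable graphs if `q ≥ n ^ (1/2 + ε)`. Moreover the trade-off: for all large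
`n` and all `k ≥ √n exp (14 √(log n))`, a polynomial of degree at most `log (k / √n) ^ 2 / 1024` which has
mean `0` under `G(n, 1/2)` and is at least `1` on the `k`-colourable graphs has second moment at least
`k / √n`.
-/

set_option autoImplicit false

open Filter

namespace Pool.Agent.Results.MP_537ba7_lc.NoLowDegreeRefutation

/-- the unordered pairs of distinct vertices, the coordinates of `ℝ ^ N`, `N = n (n - 1) / 2` -/
abbrev Pair (n : ℕ) : Type := {e : Sym2 (Fin n) // ¬ e.IsDiag}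

open Classical in
/-- the encoding of a graph: `+1` at the edges and `-1` at the other pairs -/
noncomputable def enc {n : ℕ} (G : SimpleGraph (Fin n)) : Pair n → ℝ :=
  fun e => if e.1 ∈ G.edgeSet then 1 else -1

/-- the value of a polynomial in `N` variables at a graph -/
noncomputable def val {n : ℕ} (f : MvPolynomial (Pair n) ℝ) (G : SimpleGraph (Fin n)) : ℝ :=
  MvPolynomial.eval (enc G) f

open Classical in
/-- the expectation for `G(n, 1/2)`, the uniform distribution on the graphs on the vertices `Fin n` -/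
noncomputable def mean {n : ℕ} (F : SimpleGraph (Fin n) → ℝ) : ℝ :=
  (∑ G : SimpleGraph (Fin n), F G) / Fintype.card (SimpleGraph (Fin n))

/-- the polynomials `f n` weakly separate `G(n, 1/2)` and the `q n`-colourable graphs (the first two
conditions are required for all large `n` only) -/
def WeaklySeparates (q : ℕ → ℕ) (f : ∀ n : ℕ, MvPolynomial (Pair n) ℝ) : Prop :=
  (∀ᶠ n : ℕ in atTop, ∀ G : SimpleGraph (Fin n), G.Colorable (q n) → 1 ≤ val (f n) G) ∧
    (∀ᶠ n : ℕ in atTop, mean (val (f n)) = 0) ∧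
    (fun n : ℕ => mean fun G => val (f n) G ^ 2) =O[atTop] (fun _ : ℕ => (1 : ℝ))

theorem totalDegree_bind {σ τ : Type} (f : MvPolynomial σ ℝ) (g : σ → MvPolynomial τ ℝ)
    (hg : ∀ i, (g i).totalDegree ≤ 1) : (MvPolynomial.bind₁ g f).totalDegree ≤ f.totalDegree := by
  classical
  rw [← MvPolynomial.aeval_eq_bind₁, MvPolynomial.aeval_def, MvPolynomial.eval₂_eq]
  refine MvPolynomial.totalDegree_finsetSum_le fun s hs => ?_
  refine (MvPolynomial.totalDegree_mul _ _).trans ?_
  rw [MvPolynomial.algebraMap_eq, MvPolynomial.totalDegree_C, zero_add]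
  refine (MvPolynomial.totalDegree_finsetProd _ _).trans ?_
  refine le_trans (Finset.sum_le_sum fun i _ =>
    (MvPolynomial.totalDegree_pow (g i) (s i)).trans (Nat.mul_le_mul_left _ (hg i))) ?_
  simp only [mul_one]
  exact MvPolynomial.le_totalDegree hs

/-- the polynomial in the edge indicators -/
noncomputable def conv {n : ℕ} (f : MvPolynomial (Pair n) ℝ) : MvPolynomial (Sym2 (Fin n)) ℝ :=
  MvPolynomial.bind₁ (fun e : Pair n =>
    (MvPolynomial.C 2 * MvPolynomial.X e.1 - MvPolynomial.C 1 : MvPolynomial (Sym2 (Fin n)) ℝ)) f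

theorem conv_degree {n : ℕ} (f : MvPolynomial (Pair n) ℝ) :
    (conv f).totalDegree ≤ f.totalDegree := by
  refine totalDegree_bind f _ fun e => ?_
  refine (MvPolynomial.totalDegree_sub _ _).trans ?_
  rw [MvPolynomial.totalDegree_C]
  refine max_le ((MvPolynomial.totalDegree_mul _ _).trans ?_) (by omega)
  rw [MvPolynomial.totalDegree_C, zero_add, MvPolynomial.totalDegree_X]

theorem conv_eval {n : ℕ} (f : MvPolynomial (Pair n) ℝ) (G : SimpleGraph (Fin n)) :
    MvPolynomial.eval (W988.LD.ind G) (conv f) = val f G := by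
  classical
  unfold conv val
  rw [← MvPolynomial.aeval_eq_eval, MvPolynomial.aeval_bind₁, ← MvPolynomial.aeval_eq_eval]
  congr 2
  funext e
  simp only [map_sub, map_mul, MvPolynomial.aeval_C, MvPolynomial.aeval_X, W988.LD.ind, enc]
  simp only [Algebra.algebraMap_self, RingHom.id_apply]
  split_ifs <;> norm_num

theorem mean_eq {n : ℕ} (F : SimpleGraph (Fin n) → ℝ) : mean F = W988.LD.avg F := by
  unfold mean W988.LD.avg
  congr 1

/-- the trade-off -/
theorem tradeoff : ∃ n₀ : ℕ, ∀ n ≥ n₀, ∀ k D : ℕ,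
    Real.sqrt n * Real.exp (14 * Real.sqrt (Real.log n)) ≤ k →
    1024 * (D : ℝ) ≤ Real.log (k / Real.sqrt n) ^ 2 →
    ∀ p : MvPolynomial (Pair n) ℝ, p.totalDegree ≤ D → mean (val p) = 0 →
      (∀ G : SimpleGraph (Fin n), G.Colorable k → 1 ≤ val p G) →
      k / Real.sqrt n ≤ mean (fun G => val p G ^ 2) := by
  obtain ⟨n₀, h0⟩ := W988.LD.sharp
  refine ⟨max n₀ 1, fun n hn k D hk hD p hp hm hc => ?_⟩
  obtain ⟨μ, h1, h2, h3, h4⟩ := h0 n (le_trans (le_max_left _ _) hn) k D hk hD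
  have h5 := h4 (conv p) ((conv_degree p).trans hp)
  simp only [conv_eval] at h5
  rw [mean_eq] at hm
  have hm' : W988.LD.avg (fun G : SimpleGraph (Fin n) => val p G) = 0 := hm
  rw [hm', sub_zero] at h5
  rw [mean_eq]
  set S : ℝ := W988.LD.avg (fun G : SimpleGraph (Fin n) => val p G ^ 2) with hS
  have h6 : (1 : ℝ) ≤ ∑ G, μ G * val p G := by
    calc (1 : ℝ) = ∑ G, μ G := h2.symm
      _ ≤ ∑ G, μ G * val p G := by
          refine Finset.sum_le_sum fun G _ => ?_
          by_cases h : μ G = 0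
          · rw [h, zero_mul]
          · have := hc G (h3 G h)
            nlinarith [h1 G]
  have h7 : (1 : ℝ) ≤ (Real.sqrt n / k) * S := by
    have : (1 : ℝ) ≤ (∑ G, μ G * val p G) ^ 2 := by nlinarith
    have h8 : (0 : ℝ) ^ 2 = 0 := by norm_num
    rw [h8, sub_zero] at h5
    linarith
  have hn1 : 1 ≤ n := le_trans (le_max_right _ _) hn
  have hs : 0 < Real.sqrt n := Real.sqrt_pos.2 (by exact_mod_cast hn1)
  have hk0 : (0 : ℝ) < k := lt_of_lt_of_le (mul_pos hs (Real.exp_pos _)) hk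
  rw [div_le_iff₀ hs]
  rw [div_mul_eq_mul_div, le_div_iff₀ hk0] at h7
  linarith [mul_comm (Real.sqrt n) S]

theorem result :
    (∀ ε : ℝ, 0 < ε → ∃ D : ℕ → ℕ,
      Tendsto (fun n : ℕ => (D n : ℝ) / Real.log n) atTop atTop ∧
      (∀ᶠ n : ℕ in atTop, ε ^ 2 / 2048 * Real.log n ^ 2 ≤ D n) ∧
      ∀ q : ℕ → ℕ, (∀ᶠ n : ℕ in atTop, (n : ℝ) ^ (1 / 2 + ε) ≤ q n) →
        ∀ f : ∀ n : ℕ, MvPolynomial (Pair n) ℝ, (∀ᶠ n : ℕ in atTop, (f n).totalDegree ≤ D n) →
          ¬ WeaklySeparates q f) ∧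
    ∃ n₀ : ℕ, ∀ n ≥ n₀, ∀ k D : ℕ,
      Real.sqrt n * Real.exp (14 * Real.sqrt (Real.log n)) ≤ k →
      1024 * (D : ℝ) ≤ Real.log (k / Real.sqrt n) ^ 2 →
      ∀ p : MvPolynomial (Pair n) ℝ, p.totalDegree ≤ D → mean (val p) = 0 →
        (∀ G : SimpleGraph (Fin n), G.Colorable k → 1 ≤ val p G) →
        k / Real.sqrt n ≤ mean (fun G => val p G ^ 2) := by
  refine ⟨fun ε hε => ?_, tradeoff⟩
  obtain ⟨n₀, h0⟩ := tradeoff
  have hlim : Tendsto (fun n : ℕ => Real.log n) atTop atTop :=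
    Real.tendsto_log_atTop.comp tendsto_natCast_atTop_atTop
  have hev : ∀ᶠ n : ℕ in atTop, ε ^ 2 / 2048 * Real.log n ^ 2 ≤
      (⌊ε ^ 2 * Real.log n ^ 2 / 1024⌋₊ : ℝ) := by
    filter_upwards [hlim.eventually (eventually_ge_atTop (1 + 2048 / ε ^ 2))] with n hn
    have h1 : ε ^ 2 * Real.log n ^ 2 / 1024 - 1 ≤ (⌊ε ^ 2 * Real.log n ^ 2 / 1024⌋₊ : ℝ) :=
      (Nat.sub_one_lt_floor _).le
    have hε2 : 0 < ε ^ 2 := by positivity
    have h2 : 2048 / ε ^ 2 ≤ Real.log n ^ 2 := by
      have h3 : 0 ≤ 2048 / ε ^ 2 := by positivity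
      nlinarith
    have h3 : 2048 ≤ ε ^ 2 * Real.log n ^ 2 := by
      rw [div_le_iff₀ hε2] at h2
      linarith
    linarith
  refine ⟨fun n => ⌊ε ^ 2 * Real.log n ^ 2 / 1024⌋₊, ?_, hev, ?_⟩
  · have h1 : Tendsto (fun n : ℕ => ε ^ 2 / 2048 * Real.log n) atTop atTop :=
      hlim.const_mul_atTop (by positivity)
    refine tendsto_atTop_mono' atTop ?_ h1
    filter_upwards [hev, hlim.eventually (eventually_gt_atTop 0)] with n hn hpos
    rw [le_div_iff₀ hpos]
    nlinarith
  · intro q hq f hf hsep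
    obtain ⟨s1, s2, s3⟩ := hsep
    obtain ⟨C, hC⟩ := s3.bound
    have hbig : ∀ᶠ n : ℕ in atTop, C < (n : ℝ) ^ ε :=
      ((tendsto_rpow_atTop hε).comp tendsto_natCast_atTop_atTop).eventually
        (eventually_gt_atTop C)
    obtain ⟨n, hn0, hn1, hL, hL', hqn, hfn, s1n, s2n, hCn, hbn⟩ :=
      ((eventually_ge_atTop n₀).and ((eventually_ge_atTop 1).and
        ((hlim.eventually (eventually_ge_atTop ((14 / ε) ^ 2))).and
        ((hlim.eventually (eventually_gt_atTop 0)).and
        (hq.and (hf.and (s1.and (s2.and (hC.and hbig))))))))).exists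
    have hnpos : (0 : ℝ) < n := by exact_mod_cast hn1
    have hs : 0 < Real.sqrt n := Real.sqrt_pos.2 hnpos
    have hsplit : (n : ℝ) ^ (1 / 2 + ε) = Real.sqrt n * (n : ℝ) ^ ε := by
      rw [Real.rpow_add hnpos, ← Real.sqrt_eq_rpow]
    have hqk : (n : ℝ) ^ ε ≤ (q n : ℝ) / Real.sqrt n := by
      rw [le_div_iff₀ hs]
      linarith [mul_comm (Real.sqrt n) ((n : ℝ) ^ ε)]
    have hk : Real.sqrt n * Real.exp (14 * Real.sqrt (Real.log n)) ≤ q n := by
      refine le_trans ?_ (hsplit ▸ hqn)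
      refine mul_le_mul_of_nonneg_left ?_ hs.le
      rw [Real.rpow_def_of_pos hnpos, Real.exp_le_exp]
      have h1 : 14 / ε ≤ Real.sqrt (Real.log n) := Real.le_sqrt_of_sq_le hL
      have h2 : Real.sqrt (Real.log n) * Real.sqrt (Real.log n) = Real.log n :=
        Real.mul_self_sqrt hL'.le
      have h3 : 14 ≤ ε * Real.sqrt (Real.log n) := by
        rw [div_le_iff₀ hε] at h1
        linarith
      have h4 : 0 ≤ Real.sqrt (Real.log n) := Real.sqrt_nonneg _
      nlinarith
    have hD : 1024 * ((⌊ε ^ 2 * Real.log n ^ 2 / 1024⌋₊ : ℕ) : ℝ) ≤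
        Real.log ((q n : ℝ) / Real.sqrt n) ^ 2 := by
      have h1 : ((⌊ε ^ 2 * Real.log n ^ 2 / 1024⌋₊ : ℕ) : ℝ) ≤ ε ^ 2 * Real.log n ^ 2 / 1024 :=
        Nat.floor_le (by positivity)
      have h2 : ε * Real.log n ≤ Real.log ((q n : ℝ) / Real.sqrt n) := by
        rw [← Real.log_rpow hnpos]
        exact Real.log_le_log (Real.rpow_pos_of_pos hnpos _) hqk
      have h3 : 0 ≤ ε * Real.log n := by positivity
      have h4 : (ε * Real.log n) ^ 2 ≤ Real.log ((q n : ℝ) / Real.sqrt n) ^ 2 :=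
        pow_le_pow_left₀ h3 h2 2
      rw [mul_pow] at h4
      linarith
    have hfin := h0 n hn0 (q n) _ hk hD (f n) hfn s2n s1n
    have hC2 : mean (fun G => val (f n) G ^ 2) ≤ C := by
      have := (le_abs_self _).trans hCn
      simpa using this
    linarith

end Pool.Agent.Results.MP_537ba7_lc.NoLowDegreeRefutation
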